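import Mathlib

/-!
# Kurosh's group: presentation, torsion-freeness, homomorphisms out of it
-/

set_option autoImplicit false

namespace Pool.Agent.Helper129.Kur

open Sum

/-- The generators: `inl n` is `a_n`, `inr n` is `b_{n+1}`. -/
abbrev Gen : Type := ℕ ⊕ ℕ

/-- The relator expressing `a_{n+1} b_{n+1} a_{n+1}⁻¹ b_{n+1}⁻¹ = a_n` (with `inr n` for `b_{n+1}`). -/
def rel (n : ℕ) : FreeGroup Gen :=
  FreeGroup.of (inl (n + 1)) * FreeGroup.of (inr n) * (FreeGroup.of (inl (n + 1)))⁻¹ *
    (FreeGroup.of (inr n))⁻¹ * (FreeGroup.of (inl n))⁻¹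

/-- Kurosh's group. -/
abbrev Kurosh : Type := PresentedGroup (Set.range rel)

/-- the generator `a_n` -/
def a (n : ℕ) : Kurosh := PresentedGroup.of (inl n)

/-- the generator `b_{n+1}` -/
def b (n : ℕ) : Kurosh := PresentedGroup.of (inr n)

theorem rel_ab (n : ℕ) : a (n + 1) * b n * (a (n + 1))⁻¹ * (b n)⁻¹ = a n := by
  have h : PresentedGroup.mk (Set.range rel) (rel n) = 1 := PresentedGroup.one_of_mem ⟨n, rfl⟩
  have h2 : a (n + 1) * b n * (a (n + 1))⁻¹ * (b n)⁻¹ * (a n)⁻¹ = 1 := h
  exact mul_inv_eq_one.1 h2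

/-- downward recursion: the values of `a_M, a_{M-1}, ...` -/
def dn {K : Type} [Group K] (M : ℕ) (x : K) (β : ℕ → K) : ℕ → K
  | 0 => x
  | k + 1 => dn M x β k * β (M - k - 1) * (dn M x β k)⁻¹ * (β (M - k - 1))⁻¹

/-- the values of all the `a_i` determined by those with `i ≥ M` -/
def full {K : Type} [Group K] (M : ℕ) (α β : ℕ → K) (i : ℕ) : K :=
  if M ≤ i then α i else dn M (α M) β (M - i)

theorem full_of_le {K : Type} [Group K] {M : ℕ} (α β : ℕ → K) {i : ℕ} (h : M ≤ i) :
    full M α β i = α i := if_pos h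

theorem full_of_lt {K : Type} [Group K] {M : ℕ} (α β : ℕ → K) {n : ℕ} (h : n < M) :
    full M α β n = full M α β (n + 1) * β n * (full M α β (n + 1))⁻¹ * (β n)⁻¹ := by
  have h1 : full M α β n = dn M (α M) β (M - n) := if_neg (by omega)
  have h2 : full M α β (n + 1) = dn M (α M) β (M - n - 1) := by
    by_cases h3 : M ≤ n + 1
    · have h4 : M = n + 1 := by omega
      subst h4
      rw [full_of_le _ _ le_rfl]
      have : n + 1 - n - 1 = 0 := by omega
      rw [this]; rfl
    · unfold full
      rw [if_neg h3]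
      congr 1
  rw [h1, h2]
  obtain ⟨k, hk⟩ : ∃ k, M - n = k + 1 := ⟨M - n - 1, by omega⟩
  rw [hk]
  have h5 : M - k - 1 = n := by omega
  simp only [dn, Nat.add_sub_cancel, h5]

/-- Homomorphisms out of Kurosh's group. -/
theorem exists_hom {K : Type} [Group K] (M : ℕ) (α β : ℕ → K)
    (h : ∀ n, M ≤ n → α (n + 1) * β n * (α (n + 1))⁻¹ * (β n)⁻¹ = α n) :
    ∃ f : Kurosh →* K, (∀ i, M ≤ i → f (a i) = α i) ∧ ∀ n, f (b n) = β n := by
  let g : Gen → K := Sum.elim (full M α β) β
  have hg : ∀ r ∈ Set.range rel, FreeGroup.lift g r = 1 := by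
    rintro _ ⟨n, rfl⟩
    simp only [rel, map_mul, map_inv, FreeGroup.lift_apply_of, g, Sum.elim_inl, Sum.elim_inr]
    rw [mul_inv_eq_one]
    by_cases hn : M ≤ n
    · rw [full_of_le _ _ hn, full_of_le _ _ (by omega)]
      exact h n hn
    · exact (full_of_lt α β (by omega)).symm
  refine ⟨PresentedGroup.toGroup hg, ?_, ?_⟩
  · intro i hi
    unfold a
    rw [PresentedGroup.toGroup.of]
    exact full_of_le _ _ hi
  · intro n
    unfold b
    rw [PresentedGroup.toGroup.of]
    rfl

/-- the generators with large index and the `b_i` generate -/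
theorem gen_top (M : ℕ) (S : Subgroup Kurosh) (ha : ∀ i, M ≤ i → a i ∈ S) (hb : ∀ n, b n ∈ S)
    (g : Kurosh) : g ∈ S := by
  have hall : ∀ k i, M ≤ i + k → a i ∈ S := by
    intro k
    induction k with
    | zero => intro i hi; exact ha i hi
    | succ k ih =>
      intro i hi
      have h1 := ih (i + 1) (by omega)
      rw [← rel_ab i]
      exact S.mul_mem (S.mul_mem (S.mul_mem h1 (hb i)) (S.inv_mem h1)) (S.inv_mem (hb i))
  apply PresentedGroup.generated_by (Set.range rel) S
  rintro (i | n)
  · exact hall M i (by omega)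
  · exact hb n

theorem a_ne_one (n : ℕ) : a n ≠ 1 := by
  let c : Equiv.Perm (Fin 3) := finRotate 3
  let t : Equiv.Perm (Fin 3) := Equiv.swap 0 1
  let α : ℕ → Equiv.Perm (Fin 3) := fun n => if Even n then c else c⁻¹
  obtain ⟨f, hf, _⟩ := exists_hom 0 α (fun _ => t) (by
    intro n _
    simp only [α]
    by_cases h : Even n
    · rw [if_pos h, if_neg (by rw [Nat.even_add_one]; tauto)]
      decide
    · rw [if_neg h, if_pos (by rw [Nat.even_add_one]; tauto)]
      decide)
  intro h
  have h1 := hf n (Nat.zero_le n)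
  rw [h, map_one] at h1
  simp only [α] at h1
  by_cases h2 : Even n
  · rw [if_pos h2] at h1
    exact absurd h1 (by decide)
  · rw [if_neg h2] at h1
    exact absurd h1 (by decide)

/-- the retraction expressing everything through `a_M` -/
def rho (M : ℕ) : FreeGroup Gen →* FreeGroup Gen :=
  FreeGroup.lift (Sum.elim
    (full M (fun i => FreeGroup.of (inl i)) (fun i => FreeGroup.of (inr i)))
    (fun i => FreeGroup.of (inr i)))

theorem rho_inr (M n : ℕ) : rho M (FreeGroup.of (inr n)) = FreeGroup.of (inr n) := by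
  simp [rho]

theorem rho_inl (M n : ℕ) : rho M (FreeGroup.of (inl n)) =
    full M (fun i => FreeGroup.of (inl i)) (fun i => FreeGroup.of (inr i)) n := by
  simp [rho]

theorem rho_rel (M n : ℕ) (h : n < M) : rho M (rel n) = 1 := by
  simp only [rel, map_mul, map_inv, rho_inr, rho_inl]
  rw [mul_inv_eq_one]
  exact (full_of_lt _ _ h).symm

theorem rho_full (M M' : ℕ) (h : M ≤ M') (i : ℕ) :
    rho M' (full M (fun i => FreeGroup.of (inl i)) (fun i => FreeGroup.of (inr i)) i) =
      full M' (fun i => FreeGroup.of (inl i)) (fun i => FreeGroup.of (inr i)) i := by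
  have key : ∀ k i, M ≤ i + k →
      rho M' (full M (fun i => FreeGroup.of (inl i)) (fun i => FreeGroup.of (inr i)) i) =
      full M' (fun i => FreeGroup.of (inl i)) (fun i => FreeGroup.of (inr i)) i := by
    intro k
    induction k with
    | zero =>
      intro i hi
      have hi' : M ≤ i := hi
      rw [full_of_le _ _ hi', rho_inl]
    | succ k ih =>
      intro i hi
      by_cases h1 : M ≤ i
      · rw [full_of_le _ _ h1, rho_inl]
      · rw [full_of_lt _ _ (by omega), full_of_lt (M := M') _ _ (by omega)]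
        simp only [map_mul, map_inv, rho_inr]
        rw [ih (i + 1) (by omega)]
  exact key M i (by omega)

theorem rho_rho (M M' : ℕ) (h : M ≤ M') (w : FreeGroup Gen) : rho M' (rho M w) = rho M' w := by
  have : (rho M').comp (rho M) = rho M' := by
    ext x
    rcases x with i | n
    · rw [MonoidHom.comp_apply, rho_inl, rho_full M M' h, rho_inl]
    · rw [MonoidHom.comp_apply, rho_inr, rho_inr]
  exact DFunLike.congr_fun this w

theorem mk_rho (M : ℕ) (w : FreeGroup Gen) :
    PresentedGroup.mk (Set.range rel) (rho M w) = PresentedGroup.mk (Set.range rel) w := by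
  have hA : ∀ k i, M ≤ i + k → PresentedGroup.mk (Set.range rel)
      (full M (fun i => FreeGroup.of (inl i)) (fun i => FreeGroup.of (inr i)) i) = a i := by
    intro k
    induction k with
    | zero =>
      intro i hi
      have hi' : M ≤ i := hi
      rw [full_of_le _ _ hi']; rfl
    | succ k ih =>
      intro i hi
      by_cases h1 : M ≤ i
      · rw [full_of_le _ _ h1]; rfl
      · rw [full_of_lt _ _ (by omega)]
        simp only [map_mul, map_inv]
        rw [ih (i + 1) (by omega)]
        exact rel_ab i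
  have : (PresentedGroup.mk (Set.range rel)).comp (rho M) = PresentedGroup.mk (Set.range rel) := by
    ext x
    rcases x with i | n
    · rw [MonoidHom.comp_apply, rho_inl, hA M i (by omega)]; rfl
    · rw [MonoidHom.comp_apply, rho_inr]
  exact DFunLike.congr_fun this w

/-- the union of the kernels of the retractions -/
def NN : Subgroup (FreeGroup Gen) where
  carrier := {w | ∃ M, rho M w = 1}
  one_mem' := ⟨0, map_one _⟩
  mul_mem' := by
    rintro x y ⟨M, hM⟩ ⟨M', hM'⟩
    refine ⟨max M M', ?_⟩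
    rw [map_mul, ← rho_rho M _ (le_max_left _ _) x, hM, ← rho_rho M' _ (le_max_right _ _) y, hM',
      map_one, mul_one]
  inv_mem' := by
    rintro x ⟨M, hM⟩
    exact ⟨M, by rw [map_inv, hM, inv_one]⟩

instance : NN.Normal where
  conj_mem := by
    rintro x ⟨M, hM⟩ g
    exact ⟨M, by rw [map_mul, map_mul, hM, mul_one, ← map_mul, mul_inv_cancel, map_one]⟩

theorem exists_rho {w : FreeGroup Gen} (h : PresentedGroup.mk (Set.range rel) w = 1) :
    ∃ M, rho M w = 1 := by
  rw [PresentedGroup.mk_eq_one_iff] at h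
  have : Subgroup.normalClosure (Set.range rel) ≤ NN := by
    apply Subgroup.normalClosure_le_normal
    rintro _ ⟨n, rfl⟩
    exact ⟨n + 1, rho_rel _ _ (Nat.lt_succ_self n)⟩
  exact this h

/-- Kurosh's group is torsion-free. -/
theorem torsionFree (g : Kurosh) (hg : g ≠ 1) (n : ℕ) (hn : n ≠ 0) : g ^ n ≠ 1 := by
  obtain ⟨w, rfl⟩ := PresentedGroup.mk_surjective (Set.range rel) g
  intro h
  rw [← map_pow] at h
  obtain ⟨M, hM⟩ := exists_rho h
  rw [map_pow] at hM
  have h2 : rho M w = 1 := (pow_eq_one_iff_left hn).1 hM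
  apply hg
  rw [← mk_rho M w, h2, map_one]

end Pool.Agent.Helper129.Kur
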