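import Pool.Agent.Helper129.Kur.Basic

/-!
# Right translations on Kurosh's group: countability of the almost invariant sets
-/

set_option autoImplicit false

namespace Pool.Agent.Helper129.Kur

open MulOpposite

/-- right translation -/
def R (g : Kurosh) : Equiv.Perm (Kurosh × ZMod 2) where
  toFun p := (p.1 * g, p.2)
  invFun p := (p.1 * g⁻¹, p.2)
  left_inv p := by simp
  right_inv p := by simp

/-- right translations as a homomorphism -/
def opR : Kurosh →* (Equiv.Perm (Kurosh × ZMod 2))ᵐᵒᵖ where
  toFun g := op (R g)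
  map_one' := by
    rw [← op_one]
    congr 1
    ext p <;> simp [R]
  map_mul' g h := by
    rw [← op_mul]
    congr 1
    ext p
    · simp [R, mul_assoc]
    · simp [R]

/-- twisted right translation by `b_j` -/
def tau (j : ℕ) (φ : Kurosh → ZMod 2) : Equiv.Perm (Kurosh × ZMod 2) where
  toFun p := (p.1 * b j, p.2 + φ p.1)
  invFun p := (p.1 * (b j)⁻¹, p.2 - φ (p.1 * (b j)⁻¹))
  left_inv p := by simp
  right_inv p := by simp

/-- functions with prescribed differences along `b_j` -/
theorem fox (j : ℕ) (φ : Kurosh → ZMod 2) : ∃ F : Kurosh → ZMod 2,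
    (∀ x, F (x * b j) = F x + φ x) ∧ (∀ x i, i ≠ j → F (x * b i) = F x) ∧
      ∀ x i, j + 1 ≤ i → F (x * a i) = F x := by
  classical
  obtain ⟨f, hfa, hfb⟩ := exists_hom (j + 1) (fun i => opR (a i))
    (fun i => if i = j then op (tau j φ) else opR (b i)) (by
      intro n hn
      rw [if_neg (by omega), ← map_inv, ← map_inv, ← map_mul, ← map_mul, ← map_mul, rel_ab])
  have hmul : ∀ x y p, (f (x * y)).unop p = (f y).unop ((f x).unop p) := by
    intro x y p
    rw [map_mul, unop_mul]; rfl
  let S : Subgroup Kurosh :=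
    { carrier := {g | ∀ p, ((f g).unop p).1 = p.1 * g}
      one_mem' := by
        intro p
        rw [map_one, unop_one, mul_one]; rfl
      mul_mem' := by
        intro g h hg hh p
        rw [hmul, hh, hg, mul_assoc]
      inv_mem' := by
        intro g hg p
        have h1 : (f g).unop ((f g⁻¹).unop p) = p := by
          rw [← hmul, inv_mul_cancel, map_one, unop_one]; rfl
        have h2 := hg ((f g⁻¹).unop p)
        rw [h1] at h2
        rw [h2, mul_inv_cancel_right] }
  have hS : ∀ g, g ∈ S := by
    apply gen_top (j + 1) S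
    · intro i hi p
      rw [hfa i hi]; rfl
    · intro n p
      rw [hfb n]
      by_cases h : n = j
      · subst h
        rw [if_pos rfl]; rfl
      · rw [if_neg h]; rfl
  refine ⟨fun g => ((f g).unop (1, 0)).2, ?_, ?_, ?_⟩
  · intro x
    have h1 := hS x (1, 0)
    beta_reduce
    rw [hmul, hfb, if_pos rfl]
    change ((f x).unop (1, 0)).2 + φ ((f x).unop (1, 0)).1 = _
    rw [h1, one_mul]
  · intro x i hi
    beta_reduce
    rw [hmul, hfb, if_neg hi]; rfl
  · intro x i hi
    beta_reduce
    rw [hmul, hfa i hi]; rfl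

theorem pair (w F : Kurosh → ZMod 2) (c : Kurosh) (hw : (Function.support w).Finite) :
    ∑ᶠ x, (w (x * c⁻¹) - w x) * F x = ∑ᶠ x, w x * (F (x * c) - F x) := by
  have hw2 : (Function.support fun x => w (x * c⁻¹)).Finite := by
    have : (Function.support fun x => w (x * c⁻¹)) = (fun x => x * c⁻¹) ⁻¹' Function.support w := rfl
    rw [this]
    exact hw.preimage (mul_left_injective c⁻¹).injOn
  have h1 : ∑ᶠ x, (w (x * c⁻¹) - w x) * F x =
      (∑ᶠ x, w (x * c⁻¹) * F x) - ∑ᶠ x, w x * F x := by
    rw [← finsum_sub_distrib]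
    · apply finsum_congr
      intro x; ring
    · exact hw2.subset (Function.support_mul_subset_left _ _)
    · exact hw.subset (Function.support_mul_subset_left _ _)
  have h2 : ∑ᶠ x, w x * (F (x * c) - F x) =
      (∑ᶠ x, w x * F (x * c)) - ∑ᶠ x, w x * F x := by
    rw [← finsum_sub_distrib]
    · apply finsum_congr
      intro x; ring
    · exact hw.subset (Function.support_mul_subset_left _ _)
    · exact hw.subset (Function.support_mul_subset_left _ _)
  rw [h1, h2]
  congr 1
  have h3 := finsum_comp_equiv (Equiv.mulRight c) (f := fun x => w (x * c⁻¹) * F x)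
  rw [← h3]
  apply finsum_congr
  intro x
  simp

theorem zero_of_invariant (w : Kurosh → ZMod 2) (hw : (Function.support w).Finite) (c : Kurosh)
    (hc : c ≠ 1) (h : ∀ x, w (x * c) = w x) (x : Kurosh) : w x = 0 := by
  by_contra hx
  have hpow : ∀ k : ℕ, w (x * c ^ k) = w x := by
    intro k
    induction k with
    | zero => simp
    | succ k ih => rw [pow_succ, ← mul_assoc, h, ih]
  have hinj : Function.Injective fun k : ℕ => x * c ^ k := by
    have h1 : Function.Injective fun k : ℕ => c ^ k := by
      rw [injective_pow_iff_not_isOfFinOrder, isOfFinOrder_iff_pow_eq_one]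
      rintro ⟨n, hn, hn2⟩
      exact torsionFree c hc n hn.ne' hn2
    exact fun i k hik => h1 (mul_left_cancel hik)
  refine Set.infinite_of_injective_forall_mem hinj (s := Function.support w) ?_ hw
  intro k
  rw [Function.mem_support, hpow]
  exact hx

theorem inv_step (n : ℕ) (f : Kurosh → ZMod 2) (hf : ∀ g, {x | f (x * g) ≠ f x}.Finite)
    (hs : ∀ x, f (x * a n) = f x) :
    (∀ x, f (x * a (n + 1)) = f x) ∧ ∀ x, f (x * b n) = f x := by
  classical
  let u : Kurosh → ZMod 2 := fun x => f (x * (b n)⁻¹) - f x
  let v : Kurosh → ZMod 2 := fun x => f (x * (a (n + 1))⁻¹) - f x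
  have hu : (Function.support u).Finite := by
    apply (hf (b n)⁻¹).subset
    intro x hx h0
    exact hx (by simp only [u]; rw [h0, sub_self])
  have hv : (Function.support v).Finite := by
    apply (hf (a (n + 1))⁻¹).subset
    intro x hx h0
    exact hx (by simp only [v]; rw [h0, sub_self])
  have hcomm : ∀ x, f (x * (a (n + 1))⁻¹ * (b n)⁻¹) = f (x * (b n)⁻¹ * (a (n + 1))⁻¹) := by
    intro x
    rw [← hs (x * (b n)⁻¹ * (a (n + 1))⁻¹), ← rel_ab n]
    congr 1
    group
  have heq : ∀ x, u (x * (a (n + 1))⁻¹) - u x = v (x * (b n)⁻¹) - v x := by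
    intro x
    simp only [u, v]
    rw [hcomm]
    ring
  have hv0 : ∀ x0, v x0 = 0 := by
    intro x0
    obtain ⟨F, hF1, _, hF3⟩ := fox n (fun x => if x = x0 then 1 else 0)
    have h1 := pair u F (a (n + 1)) hu
    have h2 := pair v F (b n) hv
    have h3 : ∑ᶠ x, u x * (F (x * a (n + 1)) - F x) = 0 := by
      rw [← finsum_zero (α := Kurosh)]
      apply finsum_congr
      intro x
      rw [hF3 x (n + 1) le_rfl, sub_self, mul_zero]
    have h4 : ∑ᶠ x, v x * (F (x * b n) - F x) = v x0 := by
      rw [finsum_eq_single _ x0]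
      · rw [hF1, if_pos rfl]; ring
      · intro x hx
        rw [hF1, if_neg hx]; ring
    rw [← h4, ← h2, ← h3, ← h1]
    apply finsum_congr
    intro x
    rw [heq]
  have hA : a (n + 1) ≠ 1 := a_ne_one _
  have hu0 : ∀ x, u x = 0 := by
    apply zero_of_invariant u hu (a (n + 1))⁻¹ (inv_ne_one.2 hA)
    intro x
    have := heq x
    rw [hv0, hv0, sub_self, sub_eq_zero] at this
    exact this
  constructor
  · intro x
    have := hv0 (x * a (n + 1))
    simp only [v] at this
    rw [mul_inv_cancel_right, sub_eq_zero] at this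
    exact this.symm
  · intro x
    have := hu0 (x * b n)
    simp only [u] at this
    rw [mul_inv_cancel_right, sub_eq_zero] at this
    exact this.symm

theorem inv_all (f : Kurosh → ZMod 2) (hf : ∀ g, {x | f (x * g) ≠ f x}.Finite)
    (hs : ∀ x, f (x * a 0) = f x) (g : Kurosh) : f g = f 1 := by
  have h1 : ∀ n, ∀ x, f (x * a n) = f x := by
    intro n
    induction n with
    | zero => exact hs
    | succ n ih => exact (inv_step n f hf ih).1
  let S : Subgroup Kurosh :=
    { carrier := {g | ∀ x, f (x * g) = f x}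
      one_mem' := by intro x; rw [mul_one]
      mul_mem' := by
        intro g h hg hh x
        rw [← mul_assoc, hh, hg]
      inv_mem' := by
        intro g hg x
        have := hg (x * g⁻¹)
        rw [inv_mul_cancel_right] at this
        exact this.symm }
  have hS : ∀ g, g ∈ S := gen_top 0 S (fun i _ => h1 i) (fun n => (inv_step n f hf (h1 n)).2)
  have := hS g 1
  rwa [one_mul] at this

/-- `A` is almost invariant under right translations: `A ∆ A g` is finite for every `g`. -/
def IsAlmostInvariant {G : Type} [Group G] (A : Set G) : Prop :=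
  ∀ g : G, (symmDiff A ((fun x => x * g) '' A)).Finite

theorem mem_image_mul {G : Type} [Group G] (A : Set G) (g x : G) :
    x ∈ (fun x => x * g) '' A ↔ x * g⁻¹ ∈ A := by
  constructor
  · rintro ⟨y, hy, rfl⟩
    simpa using hy
  · intro h
    exact ⟨x * g⁻¹, h, by simp⟩

open Classical in
theorem eq_of_same {A A' : Set Kurosh} (hA : IsAlmostInvariant A) (hA' : IsAlmostInvariant A')
    (h : symmDiff A ((fun x => x * a 0) '' A) = symmDiff A' ((fun x => x * a 0) '' A'))
    (h1 : (1 : Kurosh) ∈ A ↔ (1 : Kurosh) ∈ A') : A = A' := by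
  let c : Set Kurosh → Kurosh → ZMod 2 := fun B x => if x ∈ B then 1 else 0
  have hc : ∀ B : Set Kurosh, IsAlmostInvariant B → ∀ g, {x | c B (x * g) ≠ c B x}.Finite := by
    intro B hB g
    apply (hB g⁻¹).subset
    intro x hx
    rw [Set.mem_symmDiff, mem_image_mul, inv_inv]
    simp only [c, Set.mem_ofPred_eq] at hx
    by_cases h2 : x ∈ B <;> by_cases h3 : x * g ∈ B <;> simp_all
  have key := inv_all (fun x => c A x + c A' x) (by
    intro g
    apply ((hc A hA g).union (hc A' hA' g)).subset
    intro x hx
    by_contra hcon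
    rw [Set.mem_union, not_or] at hcon
    simp only [Set.mem_ofPred_eq, not_not] at hcon
    exact hx (by rw [hcon.1, hcon.2])) (by
    intro x
    have h2 := Set.ext_iff.1 h (x * a 0)
    rw [Set.mem_symmDiff, Set.mem_symmDiff, mem_image_mul, mem_image_mul,
      mul_inv_cancel_right] at h2
    have e2 : (1 : ZMod 2) + 1 = 0 := by decide
    simp only [c]
    by_cases p1 : x ∈ A <;> by_cases p2 : x * a 0 ∈ A <;> by_cases p3 : x ∈ A' <;>
      by_cases p4 : x * a 0 ∈ A' <;> simp_all)
  ext g
  have h2 := key g
  simp only [c] at h2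
  have e2 : (1 : ZMod 2) + 1 = 0 := by decide
  by_cases p1 : g ∈ A <;> by_cases p2 : g ∈ A' <;> by_cases p3 : (1 : Kurosh) ∈ A <;>
    by_cases p4 : (1 : Kurosh) ∈ A' <;> simp_all

instance : Countable Kurosh :=
  (PresentedGroup.mk_surjective (Set.range rel)).countable

theorem countable_ai : Countable {A : Set Kurosh // IsAlmostInvariant A} := by
  classical
  let Ψ : {A : Set Kurosh // IsAlmostInvariant A} → Finset Kurosh × Bool :=
    fun A => ((A.2 (a 0)).toFinset, decide ((1 : Kurosh) ∈ A.1))
  have hΨ : Function.Injective Ψ := by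
    rintro ⟨A, hA⟩ ⟨A', hA'⟩ h
    have h1 := congrArg Prod.fst h
    have h2 := congrArg Prod.snd h
    simp only [Ψ] at h1 h2
    apply Subtype.ext
    refine eq_of_same hA hA' ?_ (decide_eq_decide.1 h2)
    have h3 := congrArg (fun s : Finset Kurosh => (s : Set Kurosh)) h1
    simpa using h3
  exact hΨ.countable

end Pool.Agent.Helper129.Kur
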