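import Pool.Agent.Helper129.Kur.Fox
import Pool.Agent.H599R3.RH.Bs

/-!
# Freely indecomposable subgroups of Kurosh's group and its free decompositions
-/

set_option autoImplicit false

namespace Pool.Agent.Helper129.Kur

open Pool.Agent.H599R3.RH

section abstract

variable {G V E : Type} [Group G] [MulAction G V] [MulAction G E] (T : Tree G V E)

open Classical in
theorem diff_eq_sum (F : V → ZMod 2) (u v : V) :
    F v - F u = ∑ e ∈ (fin_sep T u v).toFinset, (F (T.d1 e) - F (T.d0 e)) := by
  let φ : E → ZMod 2 := fun e => F (T.d1 e) - F (T.d0 e)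
  let f : V → E → ZMod 2 := fun x e => if (side T e u ↔ side T e x) then 0 else φ e
  have hfin : ∀ x, (Function.support (f x)).Finite := by
    intro x
    apply (fin_sep T u x).subset
    intro e he h
    apply he
    simp only [f]
    rw [if_pos h]
  have hchar : ∀ z : ZMod 2, -z = z := by decide
  have hk : ∀ e0, (F (T.d1 e0) - ∑ᶠ e, f (T.d1 e0) e) = (F (T.d0 e0) - ∑ᶠ e, f (T.d0 e0) e) := by
    intro e0
    have h1 : (∑ᶠ e, f (T.d1 e0) e) - (∑ᶠ e, f (T.d0 e0) e) = φ e0 := by
      rw [← finsum_sub_distrib (hfin _) (hfin _), finsum_eq_single _ e0]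
      · have := side0 T e0
        have := side1 T e0
        simp only [f]
        by_cases hu : side T e0 u
        · rw [if_pos (by tauto), if_neg (by tauto), zero_sub, hchar]
        · rw [if_neg (by tauto), if_pos (by tauto), sub_zero]
      · intro e he
        have := side_ne T (e := e) (e' := e0) (Ne.symm he)
        simp only [f]
        rw [this, sub_self]
    have h2 : φ e0 = F (T.d1 e0) - F (T.d0 e0) := rfl
    rw [h2] at h1
    linear_combination -h1
  have h3 := T.conn (fun x => F x - ∑ᶠ e, f x e) hk u v
  have h4 : ∑ᶠ e, f u e = 0 := by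
    have : f u = fun _ => 0 := by funext e; simp [f]
    rw [this]; exact finsum_zero
  have h5 : ∑ᶠ e, f v e = ∑ e ∈ (fin_sep T u v).toFinset, φ e := by
    rw [finsum_eq_sum_of_support_subset (s := (fin_sep T u v).toFinset)]
    · apply Finset.sum_congr rfl
      intro e he
      rw [Set.Finite.mem_toFinset] at he
      simp only [f]
      exact if_neg he
    · intro e he
      rw [Set.Finite.coe_toFinset]
      intro h
      apply he
      simp only [f]
      rw [if_pos h]
  beta_reduce at h3
  rw [h4, h5, sub_zero] at h3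
  rw [h3]
  ring

open Classical in
theorem no_shift (htf : ∀ g : G, g ≠ 1 → ∀ n : ℕ, n ≠ 0 → g ^ n ≠ 1)
    (hfree : ∀ (e : E) (g : G), g • e = e → g = 1) (hns : ¬ Splits G)
    (hnc : ¬ ∃ t : G, ∀ g, ∃ n : ℤ, t ^ n = g) (F : V → ZMod 2)
    (hF : ∀ e, F (T.d1 e) - F (T.d0 e) = 1) (g : G) (v : V) : F (g • v) = F v := by
  rw [← sub_eq_zero, diff_eq_sum T F v (g • v)]
  refine Finset.sum_cancels_of_partition_cancels (MulAction.orbitRel G E) ?_
  intro e0 he0
  -- the function counting crossings of the orbit of `e0`
  obtain ⟨K, hK⟩ := T.surj (fun e => if e ∈ MulAction.orbit G e0 then 1 else 0)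
  have h1 := diff_eq_sum T K v (g • v)
  have hconst := T.conn (fun w => K (g • w) - K w) (by
    intro e
    have h2 := hK e
    have h3 := hK (g • e)
    rw [T.s0, T.s1] at h3
    have h4 : (g • e ∈ MulAction.orbit G e0) ↔ e ∈ MulAction.orbit G e0 := by
      constructor
      · rintro ⟨k, hk⟩
        exact ⟨g⁻¹ * k, by
          change (g⁻¹ * k) • e0 = e
          have hk' : k • e0 = g • e := hk
          rw [mul_smul, hk', inv_smul_smul]⟩
      · rintro ⟨k, hk⟩
        exact ⟨g * k, by
          change (g * k) • e0 = g • e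
          have hk' : k • e0 = e := hk
          rw [mul_smul, hk']⟩
    rw [h4] at h3
    linear_combination h3 - h2)
  rcases bs htf (T := T) e0 (hfree e0) with h | h | ⟨u, hu⟩
  · exact absurd h hns
  · exact absurd h hnc
  · have h5 : K (g • v) - K v = 0 := by
      have h6 := hconst v u
      beta_reduce at h6
      rw [h6, diff_eq_sum T K u (g • u)]
      apply Finset.sum_eq_zero
      intro e he
      rw [Set.Finite.mem_toFinset] at he
      rw [hK]
      apply if_neg
      rintro ⟨k, hk⟩
      apply he
      have h7 := hu g k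
      have hk' : k • e0 = e := hk
      rw [hk'] at h7
      exact h7.symm
    rw [h5] at h1
    rw [h1]
    rw [Finset.sum_filter]
    apply Finset.sum_congr rfl
    intro e _
    rw [hK, hF]
    by_cases h8 : e ∈ MulAction.orbit G e0
    · rw [if_pos h8, if_pos (MulAction.orbitRel_apply.2 h8)]
    · rw [if_neg h8, if_neg (fun h9 => h8 (MulAction.orbitRel_apply.1 h9))]

/-- restriction of the action to a subgroup -/
def restrict (H : Subgroup G) : Tree H V E where
  d0 := T.d0
  d1 := T.d1
  s0 g e := T.s0 g e
  s1 g e := T.s1 g e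
  conn := T.conn
  surj := T.surj

end abstract

/-- the subgroup generated by the `b_i`, `i ≠ j`, and the `a_i`, `i > j` -/
def SS (j : ℕ) : Subgroup Kurosh :=
  Subgroup.closure ({x | ∃ i, j + 1 ≤ i ∧ x = a i} ∪ {x | ∃ i, i ≠ j ∧ x = b i})

/-- the Bass-Serre tree of the free decomposition `SS j * ⟨b_j⟩` -/
noncomputable def treeK (j : ℕ) : Tree Kurosh (Kurosh ⧸ SS j) Kurosh where
  d0 g := (g : Kurosh ⧸ SS j)
  d1 g := ((g * b j : Kurosh) : Kurosh ⧸ SS j)
  s0 g e := rfl
  s1 g e := by
    change ((g * e * b j : Kurosh) : Kurosh ⧸ SS j) = ((g * (e * b j) : Kurosh) : Kurosh ⧸ SS j)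
    rw [mul_assoc]
  conn := by
    intro M F hF
    let S : Subgroup Kurosh :=
      { carrier := {g | ∀ x : Kurosh, F ((x * g : Kurosh) : Kurosh ⧸ SS j) = F (x : Kurosh ⧸ SS j)}
        one_mem' := by intro x; rw [mul_one]
        mul_mem' := by
          intro g h hg hh x
          rw [← mul_assoc, hh, hg]
        inv_mem' := by
          intro g hg x
          have := hg (x * g⁻¹)
          rw [inv_mul_cancel_right] at this
          exact this.symm }
    have hle : SS j ≤ S := by
      intro g hg x
      congr 1
      rw [QuotientGroup.eq]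
      simpa using (SS j).inv_mem hg
    have hS : ∀ g, g ∈ S := by
      apply gen_top (j + 1) S
      · intro i hi
        exact hle (Subgroup.subset_closure (Or.inl ⟨i, hi, rfl⟩))
      · intro n
        by_cases h : n = j
        · subst h
          intro x
          exact hF x
        · exact hle (Subgroup.subset_closure (Or.inr ⟨n, h, rfl⟩))
    have h1 : ∀ u : Kurosh ⧸ SS j, F u = F ((1 : Kurosh) : Kurosh ⧸ SS j) := by
      intro u
      induction u using QuotientGroup.induction_on with
      | H g =>
        have := hS g 1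
        rwa [one_mul] at this
    intro u v
    rw [h1 u, h1 v]
  surj := by
    intro φ
    obtain ⟨F, hF1, hF2, hF3⟩ := fox j φ
    have hinv : ∀ g ∈ SS j, ∀ x, F (x * g) = F x := by
      let S : Subgroup Kurosh :=
        { carrier := {g | ∀ x, F (x * g) = F x}
          one_mem' := by intro x; rw [mul_one]
          mul_mem' := by
            intro g h hg hh x
            rw [← mul_assoc, hh, hg]
          inv_mem' := by
            intro g hg x
            have := hg (x * g⁻¹)
            rw [inv_mul_cancel_right] at this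
            exact this.symm }
      have hle : SS j ≤ S := by
        apply (Subgroup.closure_le S).2
        rintro _ (⟨i, hi, rfl⟩ | ⟨i, hi, rfl⟩)
        · exact fun x => hF3 x i hi
        · exact fun x => hF2 x i hi
      exact fun g hg => hle hg
    refine ⟨fun v => Quotient.liftOn' v F (by
      intro x y hxy
      have h1 : x⁻¹ * y ∈ SS j := QuotientGroup.leftRel_apply.1 hxy
      have h2 := hinv _ h1 x
      rw [mul_inv_cancel_left] at h2
      exact h2.symm), ?_⟩
    intro e
    change F (e * b j) - F e = φ e
    rw [hF1]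
    ring

/-- A subgroup of Kurosh's group which is not cyclic and does not split freely is killed by all
the homomorphisms counting the `b_j` modulo two. -/
theorem phi_zero (H : Subgroup Kurosh) (hns : ¬ Splits H)
    (hnc : ¬ ∃ t : H, ∀ g, ∃ n : ℤ, t ^ n = g) (f : Kurosh →* Multiplicative (ℕ → ZMod 2))
    (hfa : ∀ i, f (a i) = 1) (hfb : ∀ n, f (b n) = Multiplicative.ofAdd (Pi.single n 1))
    (j : ℕ) (h : H) : (f h).toAdd j = 0 := by
  have hadd : ∀ x y : Kurosh, (f (x * y)).toAdd j = (f x).toAdd j + (f y).toAdd j := by
    intro x y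
    rw [map_mul, toAdd_mul]; rfl
  have hker : ∀ g ∈ SS j, (f g).toAdd j = 0 := by
    let S : Subgroup Kurosh :=
      { carrier := {g | (f g).toAdd j = 0}
        one_mem' := by
          change (f 1).toAdd j = 0
          rw [map_one]; rfl
        mul_mem' := by
          intro x y hx hy
          change (f (x * y)).toAdd j = 0
          have hx' : (f x).toAdd j = 0 := hx
          have hy' : (f y).toAdd j = 0 := hy
          rw [hadd, hx', hy', add_zero]
        inv_mem' := by
          intro x hx
          change (f x⁻¹).toAdd j = 0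
          have hx' : (f x).toAdd j = 0 := hx
          have h1 := hadd x x⁻¹
          rw [mul_inv_cancel, map_one, hx', zero_add] at h1
          rw [← h1]; rfl }
    have hle : SS j ≤ S := by
      apply (Subgroup.closure_le S).2
      rintro _ (⟨i, hi, rfl⟩ | ⟨i, hi, rfl⟩)
      · change (f (a i)).toAdd j = 0
        rw [hfa]; rfl
      · change (f (b i)).toAdd j = 0
        rw [hfb, toAdd_ofAdd, Pi.single_apply, if_neg (Ne.symm hi)]
    exact fun g hg => hle hg
  let F : Kurosh ⧸ SS j → ZMod 2 := fun v => Quotient.liftOn' v (fun g => (f g).toAdd j) (by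
    intro x y hxy
    have h1 : x⁻¹ * y ∈ SS j := QuotientGroup.leftRel_apply.1 hxy
    have h2 := hadd x (x⁻¹ * y)
    rw [mul_inv_cancel_left, hker _ h1, add_zero] at h2
    exact h2.symm)
  have hF : ∀ g : Kurosh, F (g : Kurosh ⧸ SS j) = (f g).toAdd j := fun g => rfl
  have key := no_shift (restrict (treeK j) H) (by
      intro g hg n hn h0
      apply torsionFree (g : Kurosh) (fun h1 => hg (Subtype.ext h1)) n hn
      exact congrArg Subtype.val h0) (by
      intro e g hge
      apply Subtype.ext
      have h1 : (g : Kurosh) * e = e := hge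
      exact mul_eq_right.1 h1) hns hnc F (by
      intro e
      change F ((e * b j : Kurosh) : Kurosh ⧸ SS j) - F (e : Kurosh ⧸ SS j) = 1
      rw [hF, hF, hadd, hfb, toAdd_ofAdd, Pi.single_apply, if_pos rfl]
      ring) h ((1 : Kurosh) : Kurosh ⧸ SS j)
  change F (((h : Kurosh) * 1 : Kurosh) : Kurosh ⧸ SS j) = F ((1 : Kurosh) : Kurosh ⧸ SS j) at key
  rw [mul_one, hF, hF, map_one] at key
  rw [key]; rfl

end Pool.Agent.Helper129.Kur
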